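import Pool.Agent.Lib.MP_c7af3c_ag.GEN.Interfaces

/-!
# RELN
-/

set_option autoImplicit false

namespace Pool.Agent.Gen.H12

open MvPolynomial

section
variable {L : Type} [Field L] {N : ℕ} (δ : Derivation ℤ L L) (x : Fin N → L)

/-- the part of `δ (F(x))` coming from the coefficients -/
noncomputable def cpart (F : MvPolynomial (Fin N) L) : L :=
  ∑ J ∈ F.support, δ (coeff J F) * ∏ i, x i ^ J i

theorem cpart_of_subset (F : MvPolynomial (Fin N) L) (S : Finset (Fin N →₀ ℕ))
    (h : F.support ⊆ S) : cpart δ x F = ∑ J ∈ S, δ (coeff J F) * ∏ i, x i ^ J i := by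
  unfold cpart
  apply Finset.sum_subset h
  intro J _ hJ
  rw [notMem_support_iff.1 hJ, map_zero, zero_mul]

theorem cpart_add (F G : MvPolynomial (Fin N) L) :
    cpart δ x (F + G) = cpart δ x F + cpart δ x G := by
  classical
  rw [cpart_of_subset δ x (F + G) (F.support ∪ G.support) support_add,
    cpart_of_subset δ x F (F.support ∪ G.support) Finset.subset_union_left,
    cpart_of_subset δ x G (F.support ∪ G.support) Finset.subset_union_right,
    ← Finset.sum_add_distrib]
  apply Finset.sum_congr rfl
  intro J _
  rw [coeff_add, map_add, add_mul]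

theorem cpart_mul_X (F : MvPolynomial (Fin N) L) (i : Fin N) :
    cpart δ x (F * X i) = cpart δ x F * x i := by
  classical
  unfold cpart
  rw [support_mul_X, Finset.sum_map, Finset.sum_mul]
  apply Finset.sum_congr rfl
  intro J _
  simp only [addRightEmbedding_apply]
  rw [coeff_mul_X, mul_assoc]
  congr 1
  have : ∀ j, x j ^ ((J + Finsupp.single i 1 : Fin N →₀ ℕ) j) =
      x j ^ J j * (if j = i then x i else 1) := by
    intro j
    rw [Finsupp.add_apply, pow_add]
    congr 1
    by_cases h : j = i
    · subst h; simp
    · rw [if_neg h, Finsupp.single_eq_of_ne h, pow_zero]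
  simp only [this]
  rw [Finset.prod_mul_distrib]
  congr 1
  rw [Finset.prod_ite_eq' Finset.univ i]
  simp

theorem cpart_C (a : L) : cpart δ x (C a) = δ a := by
  classical
  rw [cpart_of_subset δ x (C a) {0} (by
    intro J hJ
    rw [mem_support_iff, coeff_C] at hJ
    by_contra h
    apply hJ
    rw [if_neg]
    intro h0
    exact h (by simp [← h0]))]
  simp

theorem der_eval (F : MvPolynomial (Fin N) L) :
    δ (eval x F) = cpart δ x F + ∑ p, eval x (pderiv p F) * δ (x p) := by
  classical
  induction F using MvPolynomial.induction_on with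
  | C a => rw [cpart_C]; simp
  | add p q hp hq =>
    rw [map_add, map_add, hp, hq, cpart_add]
    simp only [map_add, add_mul, Finset.sum_add_distrib]
    ring
  | mul_X p i hp =>
    rw [map_mul, eval_X, Derivation.leibniz, hp, cpart_mul_X]
    have : ∀ q, eval x (pderiv q (p * X i)) * δ (x q) =
        x i * (eval x (pderiv q p) * δ (x q)) + (if q = i then eval x p * δ (x i) else 0) := by
      intro q
      rw [Derivation.leibniz, map_add]
      simp only [smul_eq_mul, map_mul, eval_X]
      by_cases h : q = i
      · subst h
        rw [if_pos rfl, pderiv_X_self]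
        simp only [map_one]
        ring
      · rw [if_neg h, pderiv_X_of_ne (Ne.symm h)]
        simp only [map_zero]
        ring
    simp only [this]
    rw [Finset.sum_add_distrib, ← Finset.mul_sum, Finset.sum_ite_eq' Finset.univ i]
    simp only [smul_eq_mul, Finset.mem_univ, if_true]
    ring

end

theorem reln : RelnStatement := by
  intro L _ n c d D x h0 m m' G hG
  classical
  have key : ∀ I : Fin (n + 1) →₀ ℕ, I.degree = d m →
      ∑ p, eval x (pderiv p (D.F m')) * D.del m I (x p) =
        if m = m' then - ∏ i, x i ^ I i else 0 := by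
    intro I hI
    have h1 := der_eval (D.del m I) x (D.F m')
    rw [h0 m', map_zero] at h1
    have h2 : cpart (D.del m I) x (D.F m') = if m = m' then ∏ i, x i ^ I i else 0 := by
      have h3 : ∀ J ∈ (D.F m').support, D.del m I (coeff J (D.F m')) =
          if m = m' ∧ I = J then 1 else 0 := by
        intro J hJ
        exact D.dual m I m' J hI (by
          have := (D.hom m') (mem_support_iff.1 hJ)
          rw [← this, Finsupp.degree_eq_weight_one]
          rfl)
      unfold cpart
      rw [Finset.sum_congr rfl (fun J hJ => by rw [h3 J hJ])]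
      by_cases hm : m = m'
      · rw [if_pos hm]
        subst hm
        have h4 : I ∈ (D.F m).support := by
          rw [mem_support_iff]
          intro h5
          have h6 := D.dual m I m I hI hI
          rw [h5, map_zero, if_pos ⟨rfl, rfl⟩] at h6
          exact zero_ne_one h6
        rw [Finset.sum_eq_single I]
        · rw [if_pos ⟨rfl, rfl⟩, one_mul]
        · intro J _ hJ
          rw [if_neg (fun h => hJ h.2.symm), zero_mul]
        · intro h; exact absurd h4 h
      · rw [if_neg hm]
        apply Finset.sum_eq_zero
        intro J _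
        rw [if_neg (fun h => hm h.1), zero_mul]
    rw [h2] at h1
    have h5 : ∑ p, eval x (pderiv p (D.F m')) * D.del m I (x p) =
        - (if m = m' then ∏ i, x i ^ I i else 0) := by
      linear_combination -h1
    rw [h5]
    split_ifs
    · rfl
    · rw [neg_zero]
  have hV : ∀ p, D.V x m G p = ∑ I ∈ G.support, coeff I G * D.del m I (x p) :=
    fun p => D.V_apply x m G p
  simp only [hV, Finset.mul_sum]
  rw [Finset.sum_comm]
  have h6 : ∀ I ∈ G.support, ∑ p, eval x (pderiv p (D.F m')) * (coeff I G * D.del m I (x p)) =
      coeff I G * (if m = m' then - ∏ i, x i ^ I i else 0) := by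
    intro I hI
    rw [← key I (by
      have := hG (mem_support_iff.1 hI)
      rw [← this, Finsupp.degree_eq_weight_one]
      rfl), Finset.mul_sum]
    apply Finset.sum_congr rfl
    intro p _
    ring
  rw [Finset.sum_congr rfl h6]
  by_cases hm : m = m'
  · rw [if_pos hm]
    simp only [if_pos hm]
    rw [eval_eq', ← Finset.sum_neg_distrib]
    apply Finset.sum_congr rfl
    intro I _
    ring
  · rw [if_neg hm]
    simp only [if_neg hm, mul_zero, Finset.sum_const_zero]

end Pool.Agent.Gen.H12
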