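import Pool.Agent.Lib.MP_c7af3c_ag.GEN.Interfaces

/-!
# LDT: linear disjointness in towers
-/

set_option autoImplicit false

namespace Pool.Agent.Gen.H12

open IntermediateField
open scoped IntermediateField.algebraAdjoinAdjoin

theorem ldt : LdtStatement := by
  intro k0 Ω _ _ _ KK EE C hC H
  classical
  -- bases
  let κ := Module.Basis.ofVectorSpace k0 KK
  let b := Module.Basis.ofVectorSpace C (extendScalars hC)
  -- `κ` is independent over `EE`
  have hκ : LinearIndependent EE (KK.val ∘ κ) := H.linearIndependent_left κ.linearIndependent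
  have hκ' : LinearIndependent (extendScalars hC) (fun j => ((κ j : KK) : Ω)) := hκ
  -- products are independent over `C`
  have hprod := linearIndependent_smul b.linearIndependent hκ'
  refine LinearDisjoint.of_basis_right b ?_
  rw [← LinearIndependent.iff_fractionRing (Algebra.adjoin C (KK : Set Ω))
    (IntermediateField.adjoin C (KK : Set Ω))]
  -- the ring `C[KK]` is spanned by `κ`
  have hspan : ∀ r ∈ Algebra.adjoin C (KK : Set Ω),
      r ∈ Submodule.span C (Set.range fun j => ((κ j : KK) : Ω)) := by
    intro r hr
    rw [← Subalgebra.mem_toSubmodule, Algebra.adjoin_eq_span] at hr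
    have h1 : (Submonoid.closure (KK : Set Ω) : Set Ω) ⊆ (KK : Set Ω) := by
      have : Submonoid.closure (KK : Set Ω) ≤ KK.toSubfield.toSubring.toSubmonoid :=
        Submonoid.closure_le.2 (fun x hx => hx)
      exact this
    have h2 : (KK : Set Ω) ⊆ (Submodule.span C (Set.range fun j => ((κ j : KK) : Ω)) : Set Ω) := by
      intro x hx
      have h3 := κ.mem_span ⟨x, hx⟩
      have h4 : x ∈ (Submodule.span k0 (Set.range κ)).map (KK.val.toLinearMap) :=
        ⟨⟨x, hx⟩, h3, rfl⟩
      rw [Submodule.map_span, ← Set.range_comp] at h4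
      exact Submodule.span_subset_span k0 C _ h4
    exact Submodule.span_le.2 (h1.trans h2) hr
  rw [linearIndependent_iff']
  intro s g hg i hi
  have hc : ∀ i, ∃ c : _ →₀ C, Finsupp.linearCombination C (fun j => ((κ j : KK) : Ω)) c =
      (g i : Ω) := fun i => by
    have := hspan (g i) (g i).2
    rwa [Finsupp.mem_span_range_iff_exists_finsupp] at this
  choose c hc using hc
  set T := s.biUnion fun i => (c i).support with hT
  have hc' : ∀ i ∈ s, (g i : Ω) = ∑ j ∈ T, c i j • ((κ j : KK) : Ω) := by
    intro i hi
    rw [← hc i, Finsupp.linearCombination_apply]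
    exact Finsupp.sum_of_support_subset _ (Finset.subset_biUnion_of_mem (fun i => (c i).support) hi)
      _ (fun j _ => zero_smul _ _)
  rw [linearIndependent_iff'] at hprod
  have hz := hprod (s ×ˢ T) (fun p => c p.1 p.2) (by
    rw [Finset.sum_product]
    rw [← hg]
    apply Finset.sum_congr rfl
    intro i hi
    rw [Algebra.smul_def]
    change _ = (g i : Ω) * _
    rw [hc' i hi, Finset.sum_mul]
    apply Finset.sum_congr rfl
    intro j _
    simp only [Algebra.smul_def, Function.comp_apply]
    change algebraMap C Ω (c i j) * (((b i : extendScalars hC) : Ω) * ((κ j : KK) : Ω)) =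
      algebraMap C Ω (c i j) * ((κ j : KK) : Ω) * ((b i : extendScalars hC) : Ω)
    ring)
  have h0 : (g i : Ω) = 0 := by
    rw [hc' i hi]
    apply Finset.sum_eq_zero
    intro j hj
    have := hz (i, j) (Finset.mem_product.2 ⟨hi, hj⟩)
    simp only at this
    rw [this, zero_smul]
  exact Subtype.ext h0

end Pool.Agent.Gen.H12
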