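import Pool.Agent.Lib.MP_c7af3c_ag.GEN.Interfaces

/-!
# RESTR: restriction of the derivations
-/

set_option autoImplicit false

namespace Pool.Agent.Gen.H12

open MvPolynomial

/-- restriction of a derivation to a subfield -/
noncomputable def restrDer {K Ω : Type} [Field K] [Field Ω] [Algebra K Ω]
    (M : IntermediateField K Ω) (δ : Derivation ℤ Ω Ω) (h : ∀ x ∈ M, δ x ∈ M) :
    Derivation ℤ M M :=
  Derivation.mk' (AddMonoidHom.toIntLinearMap
    { toFun := fun x => ⟨δ x, h x x.2⟩
      map_zero' := Subtype.ext (map_zero δ)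
      map_add' := fun x y => Subtype.ext (map_add δ (x : Ω) y) })
    (fun a b => Subtype.ext (δ.leibniz (a : Ω) b))

theorem restrDer_apply {K Ω : Type} [Field K] [Field Ω] [Algebra K Ω]
    (M : IntermediateField K Ω) (δ : Derivation ℤ Ω Ω) (h : ∀ x ∈ M, δ x ∈ M) (x : M) :
    ((restrDer M δ h x : M) : Ω) = δ x := rfl

theorem restr : RestrStatement := by
  intro C Ω _ _ _ n c d A G hG
  classical
  have hdel : ∀ m I, I.degree = d m → ∀ x ∈ IntermediateField.adjoin A.KK G,
      A.D.del m I x ∈ IntermediateField.adjoin A.KK G := by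
    intro m I hI x hx
    induction hx using IntermediateField.adjoin_induction with
    | mem g hg => rw [A.del_EE m I hI g (hG g hg)]; exact zero_mem _
    | algebraMap a =>
      exact (IntermediateField.adjoin A.KK G).algebraMap_mem ⟨_, A.del_KK m I hI a a.2⟩
    | add x y _ _ hx hy => rw [map_add]; exact add_mem hx hy
    | inv x hx hx' =>
      rw [Derivation.leibniz_inv, smul_eq_mul]
      exact mul_mem (neg_mem (pow_mem (inv_mem hx) 2)) hx'
    | mul x y hx hy hx' hy' =>
      rw [Derivation.leibniz, smul_eq_mul, smul_eq_mul]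
      exact add_mem (mul_mem hx hy') (mul_mem hy hx')
  have hco : ∀ m J, coeff J (A.D.F m) ∈ IntermediateField.adjoin A.KK G := fun m J =>
    (IntermediateField.adjoin A.KK G).algebraMap_mem ⟨_, A.coeff_mem m J⟩
  let F' : Fin c → MvPolynomial (Fin (n + 1)) (IntermediateField.adjoin A.KK G) := fun m =>
    ∑ J ∈ (A.D.F m).support, monomial J ⟨coeff J (A.D.F m), hco m J⟩
  have hmap : ∀ m, MvPolynomial.map (algebraMap (IntermediateField.adjoin A.KK G) Ω) (F' m) =
      A.D.F m := by
    intro m
    simp only [F', map_sum, map_monomial]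
    conv_rhs => rw [(A.D.F m).as_sum]
    rfl
  have hcoeff : ∀ m J, ((coeff J (F' m) : IntermediateField.adjoin A.KK G) : Ω) =
      coeff J (A.D.F m) := by
    intro m J
    rw [← hmap m, coeff_map]
    rfl
  refine ⟨{ F := F'
            hom := ?_
            del := fun m I => if h : I.degree = d m then
              restrDer (IntermediateField.adjoin A.KK G) (A.D.del m I) (hdel m I h) else 0
            dual := ?_ }, hmap, ?_⟩
  · intro m J hJ
    apply A.D.hom m
    intro h0
    apply hJ
    apply Subtype.ext
    rw [hcoeff, h0]; rfl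
  · intro m I m' J hI hJ
    rw [dif_pos hI]
    apply Subtype.ext
    rw [restrDer_apply, hcoeff, A.D.dual m I m' J hI hJ]
    split_ifs <;> rfl
  · intro m I hI f
    simp only [dif_pos hI]
    rfl

end Pool.Agent.Gen.H12
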